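import Mathlib

namespace Pool.Agent.Results.MP_03ede5_co.Yes

open Set

variable {d : ℕ}

/-- A lattice point as a point of Euclidean space. -/
def pt (p : Fin d → ℤ) : EuclideanSpace ℝ (Fin d) := WithLp.toLp 2 fun i => (p i : ℝ)

/-- A train line: departure point and arrival point. -/
abbrev Line (d : ℕ) := (Fin d → ℤ) × (Fin d → ℤ)

def track (L : Line d) : Set (EuclideanSpace ℝ (Fin d)) := segment ℝ (pt L.1) (pt L.2)

/-- Tracks are axis-parallel with distinct ends, and two tracks share at most one point. -/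
def Regular (N : Set (Line d)) : Prop :=
  (∀ L ∈ N, ∃ i, L.1 i ≠ L.2 i ∧ ∀ j, j ≠ i → L.1 j = L.2 j) ∧
    ∀ L ∈ N, ∀ L' ∈ N, L ≠ L' → (track L ∩ track L').Subsingleton

/-- A collision-free schedule for trains of length `l` and speed one. -/
def Schedule (l : ℕ) (N : Set (Line d)) (t : Line d → ℝ) : Prop :=
  (∀ L ∈ N, 0 ≤ t L) ∧ ∀ L ∈ N, ∀ L' ∈ N, L ≠ L' → ∀ x ∈ track L ∩ track L',
    Disjoint (Ioo (t L + dist (pt L.1) x) (t L + dist (pt L.1) x + l))
      (Ioo (t L' + dist (pt L'.1) x) (t L' + dist (pt L'.1) x + l))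

theorem crt (J : Type) [Fintype J] (l : ℕ) : ∃ (C : ℕ) (m : J → ℕ), (∀ j, 2 * l ≤ m j) ∧
    ∀ a : J → ℤ, ∃ t : ℕ, t ≤ C ∧ ∀ j, (m j : ℤ) ∣ t - a j := by
  let m : J → ℕ := fun j => Nat.fermatNumber (2 * l + Fintype.equivFin J j)
  have h0 : ∀ j, m j ≠ 0 := fun j => (Nat.zero_lt_two.trans (Nat.two_lt_fermatNumber _)).ne'
  have hc : Set.Pairwise (Finset.univ : Finset J) (Function.onFun Nat.Coprime m) :=
    fun i _ j _ h => Nat.coprime_fermatNumber_fermatNumber fun e =>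
      h ((Fintype.equivFin J).injective (Fin.ext (by omega)))
  refine ⟨∏ j, m j, m, fun j => le_self_add.trans Nat.fermatNumber_strictMono.le_apply, fun a => ?_⟩
  refine ⟨_, (Nat.chineseRemainderOfFinset_lt_prod (fun j => (a j % m j).toNat) m
    (fun j _ => h0 j) hc).le, fun j => ?_⟩
  have h1 := (Nat.chineseRemainderOfFinset (fun j => (a j % m j).toNat) m Finset.univ
    (fun j _ => h0 j) hc).2 j (Finset.mem_univ _)
  rw [← Int.natCast_modEq_iff, Int.toNat_of_nonneg (Int.emod_nonneg _ (by exact_mod_cast h0 j))] at h1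
  exact (h1.trans (Int.mod_modEq _ _)).symm.dvd

theorem sep {l m : ℕ} {T T' : ℤ} (hm : 2 * l ≤ m) (h : (m : ℤ) ∣ T - T' - l) :
    Disjoint (Ioo (T : ℝ) (T + l)) (Ioo (T' : ℝ) (T' + l)) := by
  obtain ⟨k, hk⟩ := h
  have : T' + l ≤ T ∨ T + l ≤ T' := by
    rcases le_or_gt 0 k with h | h
    · left; nlinarith [mul_nonneg (Int.natCast_nonneg m) h]
    · right; nlinarith [mul_le_mul_of_nonneg_left (show k ≤ -1 by omega) (Int.natCast_nonneg m)]
  refine Set.disjoint_left.mpr fun x a b => ?_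
  rcases this with h | h <;> have : (_ : ℝ) ≤ _ := Int.cast_le.mpr h <;> push_cast at this <;>
    linarith [a.1, a.2, b.1, b.2]

theorem cum (X : Set ℤ) : ∃ F : ℤ → ℤ, ∀ a ∈ X, ∀ b, a < b → (∀ z ∈ X, ¬ (a < z ∧ z < b)) →
    F b = F a + 1 := by
  classical
  let g : ℤ → ℤ := fun z => if z ∈ X then 1 else 0
  let F : ℤ → ℤ := fun z => Int.inductionOn' z 0 0 (fun k _ r => r + g k) fun k _ r => r - g (k - 1)
  have hF : ∀ z, F (z + 1) = F z + g z := by
    intro z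
    rcases le_or_gt 0 z with h | h
    · exact Int.inductionOn'_add_one h
    · have : F (z + 1 - 1) = F (z + 1) - g (z + 1 - 1) := Int.inductionOn'_sub_one h
      rw [add_sub_cancel_right] at this
      omega
  refine ⟨F, fun a ha b hb => ?_⟩
  induction b, hb using Int.leInduction with
  | base => intro _; rw [hF]; simp [g, ha]
  | succ b hb ih =>
    intro h
    rw [hF, ih fun z hz q => h z hz ⟨q.1, by omega⟩]
    simp only [g]
    rw [if_neg fun q => h b q ⟨hb, by omega⟩, add_zero]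

def Ax (L : Line d) (i : Fin d) (ε : ℤˣ) : Prop :=
  0 < ε * (L.2 i - L.1 i) ∧ ∀ j, j ≠ i → L.1 j = L.2 j

theorem mem_track {L : Line d} {i : Fin d} {ε : ℤˣ} (h : Ax L i ε) (x : EuclideanSpace ℝ (Fin d)) :
    x ∈ track L ↔ (∀ j, j ≠ i → x j = L.1 j) ∧ 0 ≤ ((ε : ℤ) : ℝ) * (x i - L.1 i) ∧
      ((ε : ℤ) : ℝ) * (x i - L.2 i) ≤ 0 := by
  have h1 : (0 : ℝ) < ((ε : ℤ) : ℝ) * (L.2 i - L.1 i) := by exact_mod_cast h.1
  rw [track, segment_eq_image']
  constructor
  · rintro ⟨r, ⟨a, b⟩, rfl⟩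
    refine ⟨fun j hj => by simp [pt, h.2 j hj], ?_, ?_⟩ <;> simp [pt] <;> nlinarith
  · rintro ⟨a, b, c⟩
    have h2 : (L.2 i : ℝ) - L.1 i ≠ 0 := fun e => by simp [e] at h1
    refine ⟨((ε : ℤ) : ℝ) * (x i - L.1 i) / (((ε : ℤ) : ℝ) * (L.2 i - L.1 i)),
      ⟨by positivity, (div_le_one h1).mpr (by linarith)⟩, ?_⟩
    ext j
    by_cases e : j = i
    · subst e
      have : ((ε : ℤ) : ℝ) ≠ 0 := by simp
      simp only [pt, PiLp.add_apply, PiLp.smul_apply, PiLp.sub_apply, smul_eq_mul]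
      field_simp
      ring
    · simp [pt, a j e, h.2 j e]

theorem dist_eq {L : Line d} {i : Fin d} {ε : ℤˣ} (h : Ax L i ε) {x : EuclideanSpace ℝ (Fin d)}
    (hx : x ∈ track L) {z : ℤ} (hz : x i = z) : dist (pt L.1) x = (ε * (z - L.1 i) : ℤ) := by
  obtain ⟨a, b, -⟩ := (mem_track h x).mp hx
  rw [EuclideanSpace.dist_eq, Finset.sum_eq_single i (fun j _ hj => by simp [pt, a j hj]) (by simp),
    Real.sqrt_sq dist_nonneg, Real.dist_eq]
  push_cast
  rw [← hz, ← abs_of_nonneg b, abs_mul, abs_sub_comm]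
  rcases Int.units_eq_one_or ε with rfl | rfl <;> simp [pt]

def en (L : Line d) (b : Bool) : Fin d → ℤ := if b then L.2 else L.1

theorem touch {A B : Line d} {i : Fin d} {ε η : ℤˣ} (hA : Ax A i ε) (hB : Ax B i η)
    (h : (track A ∩ track B).Subsingleton) {x : EuclideanSpace ℝ (Fin d)}
    (hx : x ∈ track A ∩ track B) :
    ε = η ∧ (x i = A.2 i ∧ x i = B.1 i ∨ x i = A.1 i ∧ x i = B.2 i) ∨
      ε ≠ η ∧ ∃ b, x i = en A b i ∧ x i = en B b i := by
  obtain ⟨a1, a2, a3⟩ := (mem_track hA x).mp hx.1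
  obtain ⟨b1, b2, b3⟩ := (mem_track hB x).mp hx.2
  have key : ∀ z : ℝ, 0 ≤ ((ε : ℤ) : ℝ) * (z - A.1 i) → ((ε : ℤ) : ℝ) * (z - A.2 i) ≤ 0 →
      0 ≤ ((η : ℤ) : ℝ) * (z - B.1 i) → ((η : ℤ) : ℝ) * (z - B.2 i) ≤ 0 → z = x i := by
    intro z c1 c2 c3 c4
    have := h (x := WithLp.toLp 2 (Function.update x i z)) ⟨(mem_track hA _).mpr
      ⟨fun j hj => by simp [hj, a1 j hj], by simpa, by simpa⟩, (mem_track hB _).mpr
      ⟨fun j hj => by simp [hj, b1 j hj], by simpa, by simpa⟩⟩ hx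
    simpa using congrArg (fun y => y i) this
  have p1 : (0 : ℝ) < ((ε : ℤ) : ℝ) * (A.2 i - A.1 i) := by exact_mod_cast hA.1
  have p2 : (0 : ℝ) < ((η : ℤ) : ℝ) * (B.2 i - B.1 i) := by exact_mod_cast hB.1
  have k1 := key (A.1 i)
  have k2 := key (A.2 i)
  have k3 := key (B.1 i)
  have k4 := key (B.2 i)
  clear key a1 b1 hA hB
  simp only [Bool.exists_bool, en, if_true, Bool.false_eq_true, if_false]
  generalize (A.1 i : ℝ) = a, (A.2 i : ℝ) = a', (B.1 i : ℝ) = b, (B.2 i : ℝ) = b', x i = y at *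
  rcases Int.units_eq_one_or ε with rfl | rfl <;> rcases Int.units_eq_one_or η with rfl | rfl <;>
    simp at a2 a3 b2 b3 p1 p2 k1 k2 k3 k4 ⊢ <;> grind

theorem result (d l : ℕ) : ∃ C : ℝ, ∀ N : Set (Line d), Regular N →
    ∃ t : Line d → ℝ, Schedule l N t ∧ ∀ L ∈ N, t L ≤ C := by
  classical
  obtain ⟨C, m, hm, hc⟩ := crt (Option ((Fin d × ℤˣ) × (Fin d × ℤˣ) × Bool)) l
  refine ⟨C, fun N hN => ?_⟩
  rcases N.eq_empty_or_nonempty with rfl | ⟨L0, h0⟩
  · exact ⟨0, by simp [Schedule]⟩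
  have : Nonempty (Fin d) := ⟨(hN.1 L0 h0).choose⟩
  have hτ : ∀ L ∈ N, ∃ τ : Fin d × ℤˣ, Ax L τ.1 τ.2 := by
    intro L hL
    obtain ⟨i, a, b⟩ := hN.1 L hL
    rcases lt_or_gt_of_ne a with c | c
    · exact ⟨(i, 1), by simpa using c, b⟩
    · exact ⟨(i, -1), by simpa using c, b⟩
  choose! τ hτ using hτ
  choose F hF using cum
  let X : Line d → Set ℤ := fun L => {z | ∃ L' ∈ N, τ L' = τ L ∧
    (∀ j, j ≠ (τ L).1 → L'.1 j = L.1 j) ∧ z = (τ L).2 * L'.1 (τ L).1}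
  let a : Line d → Option ((Fin d × ℤˣ) × (Fin d × ℤˣ) × Bool) → ℤ := fun L j =>
    (τ L).2 * L.1 (τ L).1 + match j with
      | none => l * F (X L) ((τ L).2 * L.1 (τ L).1)
      | some (σ, σ', b) => if σ = τ L then σ'.2 * en L b σ'.1 + l else σ.2 * en L b σ.1
  choose t h1 h2 using fun L => hc (a L)
  have same : ∀ A ∈ N, ∀ B ∈ N, ∀ x ∈ track A ∩ track B, τ A = τ B → x (τ A).1 = A.2 (τ A).1 →
      x (τ A).1 = B.1 (τ A).1 →
      Disjoint (Ioo (t B + dist (pt B.1) x) (t B + dist (pt B.1) x + l))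
        (Ioo (t A + dist (pt A.1) x) (t A + dist (pt A.1) x + l)) := by
    intro A hA B hB x hx e e1 e2
    have e3 : A.2 (τ A).1 = B.1 (τ A).1 := Int.cast_injective (α := ℝ) (e1.symm.trans e2)
    have hj : ∀ j, j ≠ (τ A).1 → A.1 j = B.1 j := fun j hj => Int.cast_injective (α := ℝ)
      ((((mem_track (hτ A hA) x).mp hx.1).1 j hj).symm.trans
        (((mem_track (hτ B hB) x).mp hx.2).1 j (e ▸ hj)))
    have hX : X B = X A := by
      simp only [X, ← e]
      ext z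
      exact exists_congr fun L => and_congr_right fun _ => and_congr_right fun _ =>
        and_congr_left fun _ => forall₂_congr fun j h => by rw [hj j h]
    have p1 := (hτ A hA).1
    have hf := hF (X A) _ ⟨A, hA, rfl, fun _ _ => rfl, rfl⟩ ((τ A).2 * B.1 (τ A).1)
      (by rw [← e3]; linarith) (by
        rintro _ ⟨L, hL, c1, c2, rfl⟩ ⟨c3, c4⟩
        have hL' := hτ L hL
        rw [c1] at hL'
        have c3' : (_ : ℝ) < _ := Int.cast_lt.mpr c3
        have c4' : (_ : ℝ) < _ := Int.cast_lt.mpr (e3 ▸ c4)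
        push_cast at c3' c4'
        rcases touch (hτ A hA) hL' (hN.2 A hA L hL (by rintro rfl; exact c3.false)) (x := pt L.1)
          ⟨(mem_track (hτ A hA) _).mpr ⟨fun j h => by simp [pt, c2 j h], by simp only [pt]; linarith,
            by simp only [pt]; linarith⟩, left_mem_segment _ _ _⟩ with ⟨-, h | h⟩ | h
        · exact c4'.ne (congrArg _ h.1)
        · exact c3'.ne' (congrArg _ h.1)
        · exact h.1 rfl)
    rw [dist_eq (hτ A hA) hx.1 e2, dist_eq (e ▸ hτ B hB) hx.2 e2]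
    have := sep (hm none) (T := t B + (τ A).2 * (B.1 (τ A).1 - B.1 (τ A).1))
      (T' := t A + (τ A).2 * (B.1 (τ A).1 - A.1 (τ A).1)) (by
        have := dvd_sub (h2 B none) (h2 A none)
        simp only [a, ← e, hX, hf] at this
        exact (congrArg _ (by ring)).mpr this)
    exact_mod_cast this
  have diff : ∀ A ∈ N, ∀ B ∈ N, ∀ x ∈ track A ∩ track B, τ A ≠ τ B → ∀ b,
      x (τ A).1 = en B b (τ A).1 → x (τ B).1 = en A b (τ B).1 →
      Disjoint (Ioo (t A + dist (pt A.1) x) (t A + dist (pt A.1) x + l))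
        (Ioo (t B + dist (pt B.1) x) (t B + dist (pt B.1) x + l)) := by
    intro A hA B hB x hx e b e1 e2
    rw [dist_eq (hτ A hA) hx.1 e1, dist_eq (hτ B hB) hx.2 e2]
    have := sep (hm (some (τ A, τ B, b))) (T := t A + (τ A).2 * (en B b (τ A).1 - A.1 (τ A).1))
      (T' := t B + (τ B).2 * (en A b (τ B).1 - B.1 (τ B).1)) (by
        have := dvd_sub (h2 A (some (τ A, τ B, b))) (h2 B (some (τ A, τ B, b)))
        simp only [a, if_true, if_neg e] at this
        exact (congrArg _ (by ring)).mpr this)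
    exact_mod_cast this
  refine ⟨fun L => t L, ⟨fun L _ => by positivity, fun A hA B hB ne x hx => ?_⟩,
    fun L _ => Nat.cast_le.mpr (h1 L)⟩
  by_cases e : (τ A).1 = (τ B).1
  · rcases touch (hτ A hA) (e ▸ hτ B hB) (hN.2 A hA B hB ne) hx with ⟨c, h | h⟩ | ⟨c, b, h⟩
    · exact (same A hA B hB x hx (Prod.ext e c) h.1 h.2).symm
    · exact same B hB A hA x hx.symm (Prod.ext e c).symm (e ▸ h.2) (e ▸ h.1)
    · exact diff A hA B hB x hx (fun q => c (congrArg _ q)) b h.2 (e ▸ h.1)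
  · exact diff A hA B hB x hx (fun q => e (congrArg _ q)) false
      (((mem_track (hτ B hB) x).mp hx.2).1 _ e) (((mem_track (hτ A hA) x).mp hx.1).1 _ (Ne.symm e))

end Pool.Agent.Results.MP_03ede5_co.Yes
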